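import Mathlib
import Pool.Agent.Lib.P23H.Unif

/-!
# Finite subsets of `ℓ₂` and generic equivalent norms
-/

set_option autoImplicit false

universe u

namespace Pool.Agent.Results.MP_23d34e_an.GenericNorms

open P23G P23H

/-- For an infinite-dimensional real normed space `X` the space `EqNorm X` of all norms on `X`
equivalent to the given one is a complete metric space with the distance
`sup |log (ν x) - log (μ x)|`. (1) For all `k` and `δ > 0` there is a constant `c > 0` such that for
every such `X` and every `0 < ε ≤ 1`, at distance less than `ε` from every `ν₀` in `EqNorm X` there is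
a norm `ν₁` such that for all `ν` at distance less than `c ε` from `ν₁` every `A ⊆ ℓ₂` with at most
`k` points embeds isometrically into `(X, ν)` if the lines through two points of `A` are parallel or
`δ`-separated. (2) Outside a countable union of closed porous sets of `EqNorm X` every finite subset
of `ℓ₂` embeds isometrically into `(X, ν)`, and for every finite set `V` of vectors of Euclidean `ℝⁿ`
there is a linear map `S : ℝⁿ → X` with `ν (S v) = ‖v‖` for all `v` in `V`; these norms `ν` are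
dense. -/
theorem result :
    (∀ (k : ℕ) (δ : ℝ), 0 < δ → ∃ c : ℝ, 0 < c ∧
      ∀ (X : Type u) [NormedAddCommGroup X] [NormedSpace ℝ X], ¬ FiniteDimensional ℝ X →
        ∀ (ν₀ : EqNorm X) (ε : ℝ), 0 < ε → ε ≤ 1 →
          ∃ ν₁ : EqNorm X, dist ν₁ ν₀ < ε ∧ ∀ ν : EqNorm X, dist ν ν₁ < c * ε →
            ∀ A : Set (lp (fun _ : ℕ => ℝ) 2), A.Finite → A.ncard ≤ k → Sep δ A → Emb A ν) ∧
    ∀ (X : Type u) [NormedAddCommGroup X] [NormedSpace ℝ X], ¬ FiniteDimensional ℝ X →
      (CompleteSpace (EqNorm X) ∧ ∀ ν μ : EqNorm X,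
        dist ν μ = ⨆ x : X, |Real.log (ν.nrm x) - Real.log (μ.nrm x)|) ∧
      ∃ P : ℕ → Set (EqNorm X), (∀ j, IsClosed (P j) ∧ Porous (P j)) ∧ Dense (⋃ j, P j)ᶜ ∧
        ∀ ν ∉ ⋃ j, P j,
          (∀ A : Set (lp (fun _ : ℕ => ℝ) 2), A.Finite → Emb A ν) ∧
          ∀ (n : ℕ) (V : Set (EuclideanSpace ℝ (Fin n))), V.Finite →
            ∃ S : EuclideanSpace ℝ (Fin n) →ₗ[ℝ] X, ∀ v ∈ V, ν.nrm (S v) = ‖v‖ :=
  ⟨fun k δ hδ => main₁' k δ hδ, fun X _ _ hX => ⟨⟨inferInstance, EqNorm.dist_eq⟩, main₂ X hX⟩⟩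

end Pool.Agent.Results.MP_23d34e_an.GenericNorms
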