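import Mathlib
import Pool.Agent.Lib.P23d34e.EvenK

/-!
# Finite subsets of `ℓ₂` in spaces with almost isometric copies of `p`-direct sums
-/

set_option autoImplicit false

open scoped ENNReal RealInnerProductSpace

namespace Pool.Agent.Results.MP_23d34e_an.KrivineCase

open Pool.Agent.Lib.P23d34e

/-- Real `ℓ₂`. -/
abbrev L2 : Type := lp (fun _ : ℕ => ℝ) 2

/-- The functions `ξ ↦ ⟨ξ, v⟩ ^ m` on `ℓ₂`, `v ∈ D`, are linearly independent. -/
def PowersIndependent (m : ℕ) (D : Finset L2) : Prop :=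
  ∀ c : L2 → ℝ, (∀ ξ : L2, ∑ v ∈ D, c v * ⟪ξ, v⟫ ^ m = 0) → ∀ v ∈ D, c v = 0

/-- Every difference of two points of `A` is a multiple of a vector of a finite set `D` that has at
most `2 k + 1` elements or independent `2 k`-th powers. -/
def FewDirections (k : ℕ) (A : Set L2) : Prop :=
  ∃ D : Finset L2, (∀ a ∈ A, ∀ b ∈ A, ∃ v ∈ D, ∃ t : ℝ, a - b = t • v) ∧
    (D.card ≤ 2 * k + 1 ∨ PowersIndependent (2 * k) D)

/-- Let `X` contain, for all `N` and `ε > 0`, a `(1 + ε)`-isometric copy of the `p`-direct sum of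
`N` copies of the normed space `Y`, where `p ∈ [1, ∞]`, and let `A` be a finite subset of `ℓ₂`.
Then `A` embeds isometrically into `X` if one of the following holds:
`Y ≠ 0` and `p` is not an even integer; `p = 2` and `Y` violates the parallelogram law; `p < ∞` and
for some `x, y ∈ Y` the function `t ↦ ‖x + t y‖ ^ p` is not a polynomial; or `Y ≠ 0`, `p = 2 k` is
an even integer and `A` has few directions. -/
theorem result (p : ℝ≥0∞) [Fact (1 ≤ p)] (Y X : Type*) [NormedAddCommGroup Y] [NormedSpace ℝ Y]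
    [NormedAddCommGroup X] [NormedSpace ℝ X]
    (hX : ∀ (N : ℕ) (ε : ℝ), 0 < ε → ∃ J : PiLp p (fun _ : Fin N => Y) →ₗ[ℝ] X,
      ∀ z, ‖z‖ ≤ ‖J z‖ ∧ ‖J z‖ ≤ (1 + ε) * ‖z‖)
    (A : Set L2) (hA : A.Finite)
    (hY : (Nontrivial Y ∧ ∀ k : ℕ, p ≠ 2 * k) ∨
      (p = 2 ∧ ∃ x y : Y, ‖x + y‖ ^ 2 + ‖x - y‖ ^ 2 ≠ 2 * (‖x‖ ^ 2 + ‖y‖ ^ 2)) ∨
      (p ≠ ∞ ∧ ∃ x y : Y, ¬ ∃ P : Polynomial ℝ, ∀ t : ℝ, ‖x + t • y‖ ^ p.toReal = P.eval t) ∨
      (Nontrivial Y ∧ ∃ k : ℕ, p = 2 * k ∧ FewDirections k A)) :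
    ∃ f : A → X, Isometry f := by
  rcases hY with hY | hY | hY | ⟨hY, k, hp, D, hAD, hD⟩
  · obtain ⟨hY, hp⟩ := hY
    exact exists_isometry (Y := Y) hX (flexible_of_ne_even hp) A hA
  · obtain ⟨rfl, hY⟩ := hY
    exact exists_isometry (Y := Y) hX (flexible_two hY) A hA
  · exact exists_isometry (Y := Y) hX (Or.inr hY) A hA
  · exact Ev.exists_isometry_even (Y := Y) hp hX A hA D hAD hD

end Pool.Agent.Results.MP_23d34e_an.KrivineCase
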