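import Mathlib
import Pool.Agent.Lib.P23D.Final

/-!
# Finite subsets of `ℓ₂` with at most one affine dependence in infinite-dimensional normed spaces
-/

set_option autoImplicit false

namespace Pool.Agent.Results.MP_23d34e_an.OneDependence

/-- Let `A` be a finite subset of a real inner product space `H` (for instance of `ℓ₂`) with at most
`dim aff A + 2` points, no three of them on a line. Then `A` embeds isometrically into every
infinite-dimensional real normed space. -/
theorem result (H : Type*) [NormedAddCommGroup H] [InnerProductSpace ℝ H] (X : Type*)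
    [NormedAddCommGroup X] [NormedSpace ℝ X] (hX : ¬ FiniteDimensional ℝ X) (A : Set H)
    (hA : A.Finite) (hdim : A.ncard ≤ Module.finrank ℝ (vectorSpan ℝ A) + 2)
    (hc : ∀ S ⊆ A, S.ncard = 3 → ¬ Collinear ℝ S) : ∃ f : A → X, Isometry f := by
  refine P23D.final X hX A hA hdim fun x hx y hy z hz h1 h2 h3 => hc _ ?_ ?_
  · intro w hw
    rcases hw with rfl | rfl | rfl
    · exact hx
    · exact hy
    · exact hz
  · exact Set.ncard_eq_three.2 ⟨x, y, z, h1, h2, h3, rfl⟩

end Pool.Agent.Results.MP_23d34e_an.OneDependence
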