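import Mathlib
import Pool.Agent.Lib.P23Z.Poly

/-!
# Regular `2p`-gons with their centre in normed spaces
-/

set_option autoImplicit false

namespace Pool.Agent.Results.MP_23d34e_an.PolygonsWithCentre

/-- Let `p` be an odd prime and `X` a real normed space of dimension at least `6p - 4` (for
example, an infinite-dimensional one).

* There is a real-linear map `T : ℂ → X` with `‖T z‖ = 1` for all `4p`-th roots of unity `z`.
* Let `A` be a metric space with an isometry `e : A → ℂ` such that, for some `u ≠ 0`, every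
  difference `e a - e b` is a real multiple of `z u` for some `4p`-th root of unity `z` (the lines
  through two points of `e(A)` have directions among `2p` equally spaced ones). Then `A` embeds
  isometrically into `X`.
* In particular, this holds if `e(A)` consists of vertices of a regular `2p`-gon and, possibly, its
  centre. -/
theorem result (p : ℕ) (hp : p.Prime) (h2 : p ≠ 2) (X : Type*) [NormedAddCommGroup X]
    [NormedSpace ℝ X] (hX : ((6 * p - 4 : ℕ) : Cardinal) ≤ Module.rank ℝ X) :
    (∃ T : ℂ →ₗ[ℝ] X, ∀ z : ℂ, z ^ (4 * p) = 1 → ‖T z‖ = 1) ∧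
    (∀ (A : Type*) [MetricSpace A] (e : A → ℂ) (u : ℂ), Isometry e → u ≠ 0 →
      (∀ a b : A, ∃ (t : ℝ) (z : ℂ), z ^ (4 * p) = 1 ∧ e a - e b = t * z * u) →
      ∃ f : A → X, Isometry f) ∧
    (∀ (A : Type*) [MetricSpace A] (e : A → ℂ) (c r : ℂ), Isometry e →
      (∀ a : A, e a = c ∨ (e a - c) ^ (2 * p) = r ^ (2 * p)) →
      ∃ f : A → X, Isometry f) := by
  obtain ⟨s, hs⟩ := exists_finset_linearIndependent_of_le_rank hX
  obtain ⟨hcard, hli⟩ := hs
  have hx : LinearIndependent ℝ (fun k : Fin (6 * p - 4) => ((s.equivFinOfCardEq hcard).symm k : X)) :=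
    hli.comp _ (s.equivFinOfCardEq hcard).symm.injective
  refine ⟨Lib.P23Z.exists_lin hp h2 le_rfl hx, ?_, ?_⟩
  · intro A _ e u he hu h
    exact Lib.P23Z.exists_iso hp h2 le_rfl hx he hu h
  · intro A _ e c r he h
    exact Lib.P23Z.exists_iso_poly hp h2 le_rfl hx he c r h

end Pool.Agent.Results.MP_23d34e_an.PolygonsWithCentre
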